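import Pool.Agent.helper35.OT.Spec

/-!
# Row `otr:D4` (MP_050f5b_nt)
-/

set_option autoImplicit false

namespace Pool.Agent.helper35.OT

open Finset

theorem D4_cont (r : ℕ → ℕ) (ρ : ℝ) (hρ : 0 < ρ) (hρ1 : ρ < 1) (hS : SM r ρ) :
    ContinuousAt (fun x : ℝ => SS r (x ^ 2)) ρ := by
  have h1 : ContinuousOn (fun t : ℝ => SS r t) (Set.Icc 0 ρ) := by
    unfold SS
    refine continuousOn_tsum (u := fun n => (r n : ℝ) * ρ ^ n) (fun n => ?_) hS (fun n t ht => ?_)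
    · exact (continuous_const.mul (continuous_pow n)).continuousOn
    · rw [Real.norm_of_nonneg (mul_nonneg (Nat.cast_nonneg _) (pow_nonneg ht.1 n))]
      exact mul_le_mul_of_nonneg_left (pow_le_pow_left₀ ht.1 ht.2 n) (Nat.cast_nonneg _)
  have h2 : ρ ^ 2 < ρ := by nlinarith
  have h3 : 0 < ρ ^ 2 := by positivity
  have h4 : ContinuousAt (fun t : ℝ => SS r t) (ρ ^ 2) :=
    h1.continuousAt (Icc_mem_nhds h3 h2)
  exact ContinuousAt.comp (f := fun x : ℝ => x ^ 2) (g := fun t : ℝ => SS r t) h4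
    (continuous_pow 2).continuousAt

theorem D4 (hFE : FE_stmt) (hMJ : MJ_stmt) (hD1 : D1_stmt) : D4_stmt := by
  intro c0 c1 c2 r ρ hRc hc0 hc2 hρ hρ1 hdom
  have hS : SM r ρ := (hdom ρ hρ.le).2 le_rfl
  have hle := hD1 c0 c1 c2 r ρ hRc hc0 hc2 hρ hρ1.le hS
  by_contra hne
  have hlt : c1 * ρ + c2 * ρ * SS r ρ < 1 := lt_of_le_of_ne hle hne
  obtain ⟨S, hSd⟩ : ∃ S, S = SS r ρ := ⟨_, rfl⟩
  rw [← hSd] at hlt
  have hS0 : 0 ≤ S := by
    rw [hSd]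
    exact tsum_nonneg fun n => mul_nonneg (Nat.cast_nonneg _) (pow_nonneg hρ.le n)
  obtain ⟨-, hfe⟩ := hFE c0 c1 c2 r ρ hRc hρ.le hρ1.le hS
  rw [← hSd] at hfe
  have hc2' : (1 : ℝ) ≤ c2 := by exact_mod_cast hc2
  have hc2r : 0 < (c2 : ℝ) * ρ := by positivity
  obtain ⟨v, hv⟩ : ∃ v : ℝ, v = 1 - c1 * ρ - c2 * ρ * S := ⟨_, rfl⟩
  have hv0 : 0 < v := by rw [hv]; linarith
  obtain ⟨h, hh⟩ : ∃ h : ℝ, h = v / (c2 * ρ) := ⟨_, rfl⟩
  have hh0 : 0 < h := by rw [hh]; exact div_pos hv0 hc2r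
  have hh1 : (c2 : ℝ) * ρ * h = v := by
    rw [hh]
    field_simp
  obtain ⟨F, hF⟩ : ∃ F : ℝ → ℝ, F = fun x => x * (c0 + c1 * (S + h) + c2 / 2 * ((S + h) ^ 2 + SS r (x ^ 2))) - (S + h) :=
    ⟨_, rfl⟩
  have hFc : ContinuousAt F ρ := by
    rw [hF]
    have h1 := D4_cont r ρ hρ hρ1 hS
    exact (continuousAt_id.mul (continuousAt_const.add (continuousAt_const.mul
      (continuousAt_const.add h1)))).sub continuousAt_const
  have hFρ : F ρ < 0 := by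
    rw [hF]
    simp only
    have h1 : ρ * (c0 + c1 * (S + h) + c2 / 2 * ((S + h) ^ 2 + SS r (ρ ^ 2))) - (S + h) =
        (ρ * (c0 + c1 * S + c2 / 2 * (S ^ 2 + SS r (ρ ^ 2))) - S) - (1 - c1 * ρ - c2 * ρ * S) * h +
          (c2 * ρ * h) * h / 2 := by ring
    rw [h1, ← hfe, ← hv, hh1]
    have h2 : 0 < v * h := mul_pos hv0 hh0
    linarith
  have e1 : ∀ᶠ x in nhds ρ, F x < 0 := hFc.eventually_lt continuousAt_const hFρ
  have e2 : ∀ᶠ x in nhds ρ, x ^ 2 < ρ :=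
    (continuous_pow 2).continuousAt.eventually_lt continuousAt_const (by nlinarith : ρ ^ 2 < ρ)
  have e3 : ∀ᶠ x in nhdsWithin ρ (Set.Ioi ρ), (F x < 0 ∧ x ^ 2 < ρ) ∧ ρ < x :=
    ((e1.and e2).filter_mono nhdsWithin_le_nhds).and self_mem_nhdsWithin
  obtain ⟨x, ⟨hx1, hx2⟩, hx3⟩ := e3.exists
  have hx0 : 0 ≤ x := by linarith
  have hsum : SM r (x ^ 2) := (hdom (x ^ 2) (sq_nonneg x)).2 hx2.le
  rw [hF] at hx1
  simp only at hx1
  obtain ⟨h5, -⟩ := hMJ c0 c1 c2 r x (S + h) (SS r (x ^ 2)) hRc hx0 (by linarith) (fun N => by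
    exact hsum.sum_le_tsum (range N) (fun n _ => mul_nonneg (Nat.cast_nonneg _) (pow_nonneg (sq_nonneg x) n)))
    (by linarith)
  have h6 := (hdom x hx0).1 h5
  linarith

end Pool.Agent.helper35.OT
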