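import Pool.Agent.helper64.OT.SpecW

/-!
# Project OT, row WAS: the Artin-Schreier count
-/

set_option autoImplicit false

namespace Pool.Agent.OT

open Finset Polynomial Pool.Agent.helper82.Weil Pool.Agent.helper82.KL

/-- the map `w ↦ w^p - w` as a linear map over the prime field -/
noncomputable def WAS_phi (p : ℕ) [Fact p.Prime] (K : Type) [Field K] [Algebra (ZMod p) K] : K →ₗ[ZMod p] K :=
  (FiniteField.frobeniusAlgHom (ZMod p) K).toLinearMap - LinearMap.id

theorem WAS_phi_apply (p : ℕ) [Fact p.Prime] (K : Type) [Field K] [Algebra (ZMod p) K] (w : K) : WAS_phi p K w = w ^ p - w := by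
  have h : (FiniteField.frobeniusAlgHom (ZMod p) K) w = w ^ Fintype.card (ZMod p) := congrFun (FiniteField.coe_frobeniusAlgHom (ZMod p) K) w
  have h2 : WAS_phi p K w = (FiniteField.frobeniusAlgHom (ZMod p) K) w - w := rfl
  rw [h2, h, ZMod.card]

open Classical in
/-- the fibre over `0` has at most `p` elements -/
theorem WAS_le (p : ℕ) [Fact p.Prime] (K : Type) [Field K] [Fintype K] [Algebra (ZMod p) K] :
    (univ.filter fun w : K => w ^ p - w = 0).card ≤ p := by
  have hp : 1 < p := (Fact.out : p.Prime).one_lt
  have h1 : (X ^ p - X : K[X]).natDegree = p := FiniteField.X_pow_card_sub_X_natDegree_eq K hp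
  have h0 : (X ^ p - X : K[X]) ≠ 0 := FiniteField.X_pow_card_sub_X_ne_zero K hp
  refine le_trans ?_ (le_of_le_of_eq (card_roots' (X ^ p - X : K[X])) h1)
  refine le_trans ?_ (Multiset.toFinset_card_le (X ^ p - X : K[X]).roots)
  apply Finset.card_le_card
  intro y hy
  rw [Finset.mem_filter] at hy
  rw [Multiset.mem_toFinset, mem_roots h0, IsRoot]
  simp [hy.2]

open Classical in
/-- the fibre over `0` has `p` elements -/
theorem WAS_ker (p : ℕ) [Fact p.Prime] (K : Type) [Field K] [Fintype K] [Algebra (ZMod p) K] :
    (univ.filter fun w : K => w ^ p - w = 0).card = p := by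
  refine le_antisymm (WAS_le p K) ?_
  have h1 : ((univ : Finset (ZMod p)).image (algebraMap (ZMod p) K)).card = p := by
    rw [Finset.card_image_of_injective _ (algebraMap (ZMod p) K).injective, Finset.card_univ, ZMod.card]
  have h2 : (univ : Finset (ZMod p)).image (algebraMap (ZMod p) K) ⊆ univ.filter fun w : K => w ^ p - w = 0 := by
    intro y hy
    obtain ⟨a, _, rfl⟩ := Finset.mem_image.mp hy
    rw [Finset.mem_filter]
    refine ⟨Finset.mem_univ _, ?_⟩
    rw [← map_pow, ZMod.pow_card, sub_self]
  calc p = ((univ : Finset (ZMod p)).image (algebraMap (ZMod p) K)).card := h1.symm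
    _ ≤ _ := Finset.card_le_card h2

theorem WAS_fin (p : ℕ) [Fact p.Prime] (K : Type) [Field K] [Fintype K] [Algebra (ZMod p) K] :
    Module.finrank (ZMod p) (LinearMap.ker (WAS_phi p K)) = 1 := by
  classical
  have hp : 1 < p := (Fact.out : p.Prime).one_lt
  have h1 : Fintype.card (LinearMap.ker (WAS_phi p K)) = p := by
    rw [Fintype.card_of_subtype (univ.filter fun w : K => w ^ p - w = 0)]
    · exact WAS_ker p K
    · intro w
      rw [Finset.mem_filter, LinearMap.mem_ker, WAS_phi_apply]
      exact ⟨fun h => h.2, fun h => ⟨Finset.mem_univ _, h⟩⟩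
  have h2 := Module.card_eq_pow_finrank (K := ZMod p) (V := LinearMap.ker (WAS_phi p K))
  rw [h1, ZMod.card] at h2
  have h3 : p ^ 1 = p ^ Module.finrank (ZMod p) (LinearMap.ker (WAS_phi p K)) := by rw [pow_one]; exact h2
  exact (Nat.pow_right_injective hp h3).symm

/-- the image is the kernel of the trace -/
theorem WAS_range (p : ℕ) [Fact p.Prime] (K : Type) [Field K] [Fintype K] [Algebra (ZMod p) K] :
    LinearMap.range (WAS_phi p K) = LinearMap.ker (Algebra.trace (ZMod p) K) := by
  have : FiniteDimensional (ZMod p) K := Module.Finite.of_finite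
  apply Submodule.eq_of_le_of_finrank_eq
  · rintro _ ⟨w, rfl⟩
    rw [LinearMap.mem_ker, WAS_phi_apply, map_sub, trace_frob, sub_self]
  · have h1 := LinearMap.finrank_range_add_finrank_ker (WAS_phi p K)
    have h2 := LinearMap.finrank_range_add_finrank_ker (Algebra.trace (ZMod p) K)
    rw [WAS_fin] at h1
    rw [LinearMap.range_eq_top.mpr (Algebra.trace_surjective (ZMod p) K), finrank_top, Module.finrank_self] at h2
    omega

/-- **WAS** -/
theorem WAS : WAS_stmt := by
  intro p _ K _ _ _ y
  classical
  by_cases hy : Algebra.trace (ZMod p) K y = 0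
  · rw [if_pos hy]
    have hmem : y ∈ LinearMap.range (WAS_phi p K) := by
      rw [WAS_range]
      exact hy
    obtain ⟨w₀, hw₀⟩ := hmem
    rw [WAS_phi_apply] at hw₀
    have : CharP K p := charP_of_injective_algebraMap (algebraMap (ZMod p) K).injective p
    have hadd : ∀ a b : K, (a + b) ^ p = a ^ p + b ^ p := fun a b => add_pow_char a b p
    have h1 : (univ.filter fun w : K => w ^ p - w = y).card = (univ.filter fun w : K => w ^ p - w = 0).card := by
      refine Finset.card_bij' (fun w _ => w - w₀) (fun w _ => w + w₀) ?_ ?_ ?_ ?_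
      · intro w hw
        rw [Finset.mem_filter] at hw ⊢
        refine ⟨Finset.mem_univ _, ?_⟩
        have h2 := hadd (w - w₀) w₀
        rw [sub_add_cancel] at h2
        linear_combination hw.2 - hw₀ - h2
      · intro w hw
        rw [Finset.mem_filter] at hw ⊢
        refine ⟨Finset.mem_univ _, ?_⟩
        rw [hadd]
        linear_combination hw.2 + hw₀
      · intro w _
        exact sub_add_cancel w w₀
      · intro w _
        exact add_sub_cancel_right w w₀
    have h3 := WAS_ker p K
    rw [← h1] at h3
    exact_mod_cast h3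
  · rw [if_neg hy]
    have h1 : (univ.filter fun w : K => w ^ p - w = y) = ∅ := by
      rw [Finset.filter_eq_empty_iff]
      intro w _ hw
      apply hy
      rw [← hw, map_sub, trace_frob, sub_self]
    rw [h1, Finset.card_empty, Nat.cast_zero]

end Pool.Agent.OT
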